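import Pool.Agent.SGY.Stmts

set_option autoImplicit false

noncomputable section

namespace Pool.Agent.SGY.H17

open Pool.Agent.SGE Pool.Agent.SGP Pool.Agent.SGY

section

variable {V : Type} (σ : Equiv.Perm V)

/-- renamed edges -/
def mE (E : V → V → Prop) : V → V → Prop := fun x y => E (σ.symm x) (σ.symm y)

/-- renamed faces -/
def mF (F : V → V → V → Prop) : V → V → V → Prop :=
  fun x y z => F (σ.symm x) (σ.symm y) (σ.symm z)

theorem mem_mp (l : List V) (z : V) : z ∈ l.map σ ↔ σ.symm z ∈ l := by
  rw [List.mem_map]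
  constructor
  · rintro ⟨a, ha, rfl⟩
    rwa [Equiv.symm_apply_apply]
  · intro h
    exact ⟨_, h, Equiv.apply_symm_apply _ _⟩

theorem tri_map {R R' : V → V → V → Prop} (h : ∀ x w y, R x w y → R' (σ x) (σ w) (σ y)) :
    ∀ L : List V, Tri R L → Tri R' (L.map σ) := by
  intro L
  induction L with
  | nil => intro _; simp [Tri]
  | cons x L ih =>
    intro hL
    cases L with
    | nil => simp [Tri]
    | cons w L =>
      cases L with
      | nil => simp [Tri]
      | cons y L =>
        simp only [List.map_cons, Tri] at hL ih ⊢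
        exact ⟨h _ _ _ hL.1, ih hL.2⟩

theorem chain_map {F : V → V → V → Prop} {w : V} {l : List V} (h : l.IsChain (F w)) :
    (l.map σ).IsChain (mF σ F (σ w)) := by
  rw [List.isChain_map]
  refine h.imp ?_
  intro a b hab
  simpa [mF] using hab

theorem fan_map {E : V → V → Prop} {F : V → V → V → Prop} {x w y : V} (h : Fan E F x w y) :
    Fan (mE σ E) (mF σ F) (σ x) (σ w) (σ y) := by
  obtain ⟨l, h1, h2, h3, h4, h5, h6⟩ := h
  refine ⟨l.map σ, ?_, ?_, chain_map σ h3, h4.map σ.injective, ?_, ?_⟩
  · rw [List.head?_map, h1]; rfl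
  · rw [List.getLast?_map, h2]; rfl
  · intro z
    rw [mem_mp, ← h5]
    simp [mE]
  · intro z hz
    simp only [mF, Equiv.symm_apply_apply] at hz
    exact h6 _ hz

theorem cyc_map {E : V → V → Prop} {F : V → V → V → Prop} {z v : V}
    (h : Cyc E F (σ.symm z) (σ.symm v)) : Cyc (mE σ E) (mF σ F) z v := by
  obtain ⟨l, h1, h2, h3⟩ := h
  refine ⟨l.map σ, ?_, ?_, ?_⟩
  · have := chain_map σ h1
    simpa using this
  · have := h2.map σ.injective
    simpa using this
  · intro x
    have h4 : v :: l.map σ = (σ.symm v :: l).map σ := by simp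
    rw [h4, mem_mp, ← h3]
    simp [mE]

end

theorem map : MapStmt := by
  intro V _ a b C E F h σ
  show NT (σ a) (σ b) (C.map σ) (mE σ E) (mF σ F)
  refine ⟨?_, ?_, ?_, ?_, ?_, ?_, ?_, ?_, ?_, ?_, ?_, ?_, ?_⟩
  · exact fun h1 => h.ab (σ.injective h1)
  · exact h.nd.map σ.injective
  · rw [List.head?_map, h.hd]; rfl
  · rw [List.getLast?_map, h.ls]; rfl
  · exact fun u v h1 => h.sym _ _ h1
  · exact fun u h1 => h.irr _ h1
  · exact fun u v w h1 => h.rot _ _ _ h1
  · exact fun u v w w' h1 h2 => σ.symm.injective (h.fn _ _ _ _ h1 h2)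
  · exact fun u v w h1 => h.fe _ _ _ h1
  · have h1 := tri_map σ (R := Fan E F) (R' := Fan (mE σ E) (mF σ F))
      (fun x w y hf => fan_map σ hf) _ h.bd
    simpa using h1
  · intro z v hz he
    apply cyc_map
    refine h.int _ _ ?_ he
    rwa [← mem_mp]
  · intro Z hs hE h0
    obtain ⟨A, h1, h2, h3⟩ := h.hom (fun x y => Z (σ x) (σ y)) (fun u v => hs _ _)
      (fun u v huv => by
        have := hE _ _ huv
        simpa [mE] using this)
      (fun u => by
        have := Equiv.sum_comp σ (fun v => Z (σ u) v)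
        rw [this]
        exact h0 _)
    refine ⟨fun x y => A (σ.symm x) (σ.symm y), ?_, ?_, ?_⟩
    · intro u v w hf
      exact h1 _ _ _ hf
    · intro u v hf
      apply h2
      intro w hw
      apply hf (σ w)
      simpa [mF] using hw
    · intro u v
      have := h3 (σ.symm u) (σ.symm v)
      simpa using this
  · intro u v huv
    have h1 := h.con _ _ huv
    have h2 : Relation.ReflTransGen (mE σ E) (σ a) (σ (σ.symm u)) := by
      refine h1.lift σ ?_
      intro x y hxy
      simpa [mE] using hxy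
    rwa [Equiv.apply_symm_apply] at h2

end Pool.Agent.SGY.H17
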